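import Mathlib

/-!
# Temperley-Lieb immanants of Hadamard products of Jacobi-Trudi matrices: positivity fails

For every `k ≥ 2` and every `n ≥ 3` there are `k` skew shapes with exactly `n` rows such that the
determinant (the Temperley-Lieb immanant for `τ = 1`) of the entrywise product of the `k`
Jacobi-Trudi matrices has a negative monomial coefficient.
-/

open Finset

namespace Pool.Agent.Results.MP_f8aafe_co.NegativeForAllKN

/-- The variables: `(i, j)` stands for the variable `x^{(i)}_j`. -/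
abbrev Var (k : ℕ) : Type := Fin k × ℕ

/-- The exponent vector of the squarefree monomial `∏_{j ∈ S} x^{(i)}_j`. -/
noncomputable def ind {k : ℕ} (i : Fin k) (S : Finset ℕ) : Var k →₀ ℕ :=
  ∑ j ∈ S, Finsupp.single (i, j) 1

open Classical in
/-- The elementary symmetric function `e_m(x^{(i)})`, as a formal power series in all the
variables: the sum of all squarefree monomials of degree `m` in the variables `x^{(i)}_j`. -/
noncomputable def esym {k : ℕ} (i : Fin k) (m : ℤ) : MvPowerSeries (Var k) ℤ :=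
  fun d => if ∃ S : Finset ℕ, (S.card : ℤ) = m ∧ d = ind i S then 1 else 0

/-- The Jacobi-Trudi matrix `(e_{(λ_a - a) - (μ_b - b)}(x^{(i)}))`. -/
noncomputable def J {k n : ℕ} (i : Fin k) (lam mu : Fin n → ℕ) :
    Matrix (Fin n) (Fin n) (MvPowerSeries (Var k) ℤ) :=
  Matrix.of fun a b => esym i (((lam a : ℤ) - (a : ℕ)) - ((mu b : ℤ) - (b : ℕ)))

/-- The entrywise product of `k` matrices. -/
noncomputable def entrywise {k n : ℕ}
    (A : Fin k → Matrix (Fin n) (Fin n) (MvPowerSeries (Var k) ℤ)) :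
    Matrix (Fin n) (Fin n) (MvPowerSeries (Var k) ℤ) :=
  Matrix.of fun a b => ∏ i, A i a b

/-! ### Coefficients at squarefree monomials -/

/-- The exponent vector of a squarefree monomial. -/
noncomputable def sqf {k : ℕ} (S : Fin k → Finset ℕ) : Var k →₀ ℕ := ∑ i, ind i (S i)

lemma ind_apply {k : ℕ} (i : Fin k) (S : Finset ℕ) (a : Fin k) (j : ℕ) :
    ind i S (a, j) = if a = i ∧ j ∈ S then 1 else 0 := by
  classical
  by_cases h : a = i
  · subst h
    simp [ind, Finsupp.single_apply]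
  · simp only [ind, Finsupp.coe_finsetSum, Finset.sum_apply]
    rw [if_neg (fun h' => h h'.1)]
    refine Finset.sum_eq_zero fun j' _ => ?_
    rw [Finsupp.single_apply, if_neg]
    intro h'
    exact h (by simpa using (congrArg Prod.fst h').symm)

lemma sqf_apply {k : ℕ} (S : Fin k → Finset ℕ) (a : Fin k) (j : ℕ) :
    sqf S (a, j) = if j ∈ S a then 1 else 0 := by
  classical
  simp only [sqf, Finsupp.coe_finsetSum, Finset.sum_apply, ind_apply]
  rw [Finset.sum_eq_single a]
  · simp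
  · intro b _ hb
    rw [if_neg (fun h => hb h.1.symm)]
  · intro h
    exact absurd (Finset.mem_univ a) h

lemma ind_inj {k : ℕ} {i : Fin k} {S T : Finset ℕ} (h : ind i S = ind i T) : S = T := by
  ext j
  have := DFunLike.congr_fun h (i, j)
  rw [ind_apply, ind_apply] at this
  by_cases h1 : j ∈ S <;> by_cases h2 : j ∈ T <;> simp_all

lemma coeff_esym_mul {k : ℕ} (i : Fin k) (m : ℕ) (g : MvPowerSeries (Var k) ℤ)
    (S : Fin k → Finset ℕ) :
    MvPowerSeries.coeff (sqf S) (esym i m * g) =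
      ∑ U ∈ (S i).powersetCard m,
        MvPowerSeries.coeff (sqf (Function.update S i (S i \ U))) g := by
  classical
  rw [MvPowerSeries.coeff_mul]
  symm
  refine Finset.sum_of_injOn (fun U => (ind i U, sqf (Function.update S i (S i \ U)))) ?_ ?_ ?_ ?_
  · intro U _ V _ h
    exact ind_inj (Prod.mk.inj h).1
  · intro U hU
    have hU' := (Finset.mem_powersetCard.mp (Finset.mem_coe.mp hU)).1
    simp only [Finset.mem_coe, Finset.HasAntidiagonal.mem_antidiagonal]
    ext ⟨a, j⟩
    rw [Finsupp.add_apply, ind_apply, sqf_apply, sqf_apply]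
    by_cases ha : a = i
    · subst ha
      rw [Function.update_self]
      have := @hU' j
      by_cases h1 : j ∈ U <;> by_cases h2 : j ∈ S a <;> simp_all
    · rw [Function.update_of_ne ha]
      simp [ha]
  · rintro ⟨p, q⟩ hpq hn
    simp only [Finset.HasAntidiagonal.mem_antidiagonal] at hpq
    have h0 : MvPowerSeries.coeff p (esym i m) = esym i m p := rfl
    rw [h0]
    unfold esym
    rw [if_neg, zero_mul]
    rintro ⟨U, hU1, rfl⟩
    apply hn
    have hsub : U ⊆ S i := by
      intro j hj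
      have := DFunLike.congr_fun hpq (i, j)
      rw [Finsupp.add_apply, ind_apply, sqf_apply, if_pos ⟨rfl, hj⟩] at this
      by_contra h2
      rw [if_neg h2] at this
      omega
    refine ⟨U, ?_, ?_⟩
    · exact Finset.mem_coe.mpr (Finset.mem_powersetCard.mpr ⟨hsub, by exact_mod_cast hU1⟩)
    · refine Prod.ext rfl ?_
      ext ⟨a, j⟩
      have := DFunLike.congr_fun hpq (a, j)
      rw [Finsupp.add_apply, ind_apply, sqf_apply] at this
      show sqf (Function.update S i (S i \ U)) (a, j) = q (a, j)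
      rw [sqf_apply]
      by_cases ha : a = i
      · subst ha
        rw [Function.update_self]
        by_cases h1 : j ∈ U <;> by_cases h2 : j ∈ S a <;> simp_all
      · rw [Function.update_of_ne ha]
        simp only [ha, false_and, if_false] at this
        omega
  · intro U hU
    have hU' := Finset.mem_powersetCard.mp hU
    have h0 : MvPowerSeries.coeff (ind i U) (esym i m) = esym i m (ind i U) := rfl
    show _ = MvPowerSeries.coeff (ind i U) (esym i m) * _
    rw [h0]
    unfold esym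
    rw [if_pos ⟨U, by exact_mod_cast hU'.2, rfl⟩, one_mul]

/-- `f` has at every squarefree monomial of multidegree `r` the coefficient `F r`. -/
def Typ {k : ℕ} (f : MvPowerSeries (Var k) ℤ) (F : (Fin k → ℕ) → ℤ) : Prop :=
  ∀ S : Fin k → Finset ℕ, MvPowerSeries.coeff (sqf S) f = F (fun i => (S i).card)

lemma Typ.step {k : ℕ} {g : MvPowerSeries (Var k) ℤ} {G : (Fin k → ℕ) → ℤ} (hg : Typ g G)
    (i : Fin k) (m : ℕ) :
    Typ (esym i m * g) (fun r => ((r i).choose m : ℤ) * G (Function.update r i (r i - m))) := by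
  classical
  intro S
  rw [coeff_esym_mul]
  have : ∀ U ∈ (S i).powersetCard m,
      MvPowerSeries.coeff (sqf (Function.update S i (S i \ U))) g =
        G (Function.update (fun i => (S i).card) i ((S i).card - m)) := by
    intro U hU
    have hU' := Finset.mem_powersetCard.mp hU
    rw [hg]
    congr 1
    funext a
    by_cases ha : a = i
    · subst ha
      rw [Function.update_self, Function.update_self, Finset.card_sdiff_of_subset hU'.1, hU'.2]
    · rw [Function.update_of_ne ha, Function.update_of_ne ha]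
  rw [Finset.sum_congr rfl this, Finset.sum_const, Finset.card_powersetCard, nsmul_eq_mul]

lemma Typ.prod {k : ℕ} {g : MvPowerSeries (Var k) ℤ} {G : (Fin k → ℕ) → ℤ} (hg : Typ g G)
    (c : Fin k → ℕ) (s : Finset (Fin k)) :
    Typ ((∏ i ∈ s, esym i (c i)) * g) (fun r => (∏ i ∈ s, ((r i).choose (c i) : ℤ)) *
      G (fun i => if i ∈ s then r i - c i else r i)) := by
  classical
  induction s using Finset.induction_on with
  | empty =>
    intro S
    simp only [Finset.prod_empty, one_mul, Finset.notMem_empty, if_false]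
    exact hg S
  | insert a s ha ih =>
    intro S
    rw [Finset.prod_insert ha, mul_assoc, ih.step a (c a) S]
    beta_reduce
    rw [Finset.prod_insert ha, mul_assoc]
    congr 1
    congr 1
    · refine Finset.prod_congr rfl fun i hi => ?_
      have : i ≠ a := fun h => ha (h ▸ hi)
      rw [Function.update_of_ne this]
    · congr 1
      funext i
      by_cases h : i = a
      · subst h
        rw [if_neg ha, Function.update_self, if_pos (Finset.mem_insert_self _ _)]
      · rw [Function.update_of_ne h]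
        by_cases h2 : i ∈ s
        · rw [if_pos h2, if_pos (Finset.mem_insert_of_mem h2)]
        · rw [if_neg h2, if_neg]
          intro h3
          rcases Finset.mem_insert.mp h3 with h4 | h4
          · exact h h4
          · exact h2 h4

lemma typ_one {k : ℕ} : Typ (1 : MvPowerSeries (Var k) ℤ)
    (fun r => if ∀ i, r i = 0 then 1 else 0) := by
  classical
  intro S
  show _ = (if ∀ i, (S i).card = 0 then (1 : ℤ) else 0)
  rw [MvPowerSeries.coeff_one]
  by_cases h : ∀ i, (S i).card = 0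
  · rw [if_pos h, if_pos]
    ext ⟨a, j⟩
    rw [sqf_apply, Finset.card_eq_zero.mp (h a)]
    simp
  · rw [if_neg h, if_neg]
    intro h2
    apply h
    intro i
    rw [Finset.card_eq_zero, Finset.eq_empty_iff_forall_notMem]
    intro j hj
    have := DFunLike.congr_fun h2 (i, j)
    rw [sqf_apply, if_pos hj] at this
    simp at this

/-- The trinomial coefficient `r! / (a! b! c!)` for `a + b + c = r`. -/
def tri (r a b c : ℕ) : ℕ := r.choose a * ((r - a).choose b * (r - a - b).choose c)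

lemma tri_factorial (a b c : ℕ) :
    tri (a + b + c) a b c * (a.factorial * b.factorial * c.factorial) =
      (a + b + c).factorial := by
  unfold tri
  have h1 : a + b + c - a = b + c := by omega
  have h2 : b + c - b = c := by omega
  rw [h1, h2, Nat.choose_self, mul_one]
  have e1 := Nat.choose_mul_factorial_mul_factorial (n := a + b + c) (k := a) (by omega)
  have e2 := Nat.choose_mul_factorial_mul_factorial (n := b + c) (k := b) (by omega)
  rw [h1] at e1
  rw [h2] at e2
  rw [← e1, ← e2]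
  ring

/-- The coefficient of a product of three entries. -/
lemma coeff_three {k : ℕ} (S : Fin k → Finset ℕ) (a b c : Fin k → ℕ)
    (h : ∀ i, (S i).card = a i + b i + c i) :
    MvPowerSeries.coeff (sqf S) ((∏ i, esym i (a i)) * (∏ i, esym i (b i)) *
      (∏ i, esym i (c i))) = ∏ i, (tri (S i).card (a i) (b i) (c i) : ℤ) := by
  classical
  have h1 := (((typ_one (k := k)).prod c univ).prod b univ).prod a univ S
  rw [show (∏ i, esym i (a i)) * (∏ i, esym i (b i)) * (∏ i, esym i (c i)) =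
    (∏ i, esym i (a i)) * ((∏ i, esym i (b i)) * ((∏ i, esym i (c i)) *
      (1 : MvPowerSeries (Var k) ℤ))) by ring]
  rw [h1]
  simp only [Finset.mem_univ, if_true]
  rw [if_pos (fun i => by rw [h i]; omega), mul_one, ← Finset.prod_mul_distrib,
    ← Finset.prod_mul_distrib]
  refine Finset.prod_congr rfl fun i _ => ?_
  simp [tri]

/-! ### The shapes for `n = 3` -/

/-- The row lengths of the outer partitions. -/
def lamF (K M : ℕ) : Fin (K + 2) → Fin 3 → ℕ :=
  Fin.cons ![17, 15, 15] (Fin.cons ![17, 17, 15] (fun _ => ![M + 2, M + 2, M + 2]))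

/-- The row lengths of the inner partitions. -/
def muF (K : ℕ) : Fin (K + 2) → Fin 3 → ℕ :=
  Fin.cons ![2, 2, 0] (Fin.cons ![2, 0, 0] (fun _ => ![0, 0, 0]))

/-- The indices of the entries. -/
def cF (K M : ℕ) : Fin (K + 2) → Fin 3 → Fin 3 → ℕ :=
  Fin.cons ![![15, 16, 19], ![12, 13, 16], ![11, 12, 15]]
    (Fin.cons ![![15, 18, 19], ![14, 17, 18], ![11, 14, 15]]
      (fun _ => ![![M + 2, M + 3, M + 4], ![M + 1, M + 2, M + 3], ![M, M + 1, M + 2]]))

/-- The degrees. -/
def rF (K M : ℕ) : Fin (K + 2) → ℕ :=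
  Fin.cons 43 (Fin.cons 47 (fun _ => (M + 2) + (M + 2) + (M + 2)))

lemma J_eq (K M : ℕ) (i : Fin (K + 2)) (a b : Fin 3) :
    J i (lamF K M i) (muF K i) a b = esym i (cF K M i a b : ℕ) := by
  unfold J
  rw [Matrix.of_apply]
  congr 1
  refine Fin.cases ?_ (fun i => Fin.cases ?_ (fun i => ?_) i) i
  · fin_cases a <;> fin_cases b <;> simp [lamF, muF, cF]
  · fin_cases a <;> fin_cases b <;> simp [lamF, muF, cF]
  · fin_cases a <;> fin_cases b <;> simp [lamF, muF, cF] <;> ring

/-- The product of the trinomial coefficients. -/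
lemma prod_tri (K M : ℕ) (w : Fin 3 → Fin 3) :
    ∏ i, (tri (rF K M i) (cF K M i 0 (w 0)) (cF K M i 1 (w 1)) (cF K M i 2 (w 2)) : ℤ) =
      (tri 43 (cF K M 0 0 (w 0)) (cF K M 0 1 (w 1)) (cF K M 0 2 (w 2)) : ℤ) *
      ((tri 47 (cF K M 1 0 (w 0)) (cF K M 1 1 (w 1)) (cF K M 1 2 (w 2)) : ℤ) *
      (tri ((M + 2) + (M + 2) + (M + 2))
        ((![![M + 2, M + 3, M + 4], ![M + 1, M + 2, M + 3], ![M, M + 1, M + 2]] :
          Fin 3 → Fin 3 → ℕ) 0 (w 0))
        ((![![M + 2, M + 3, M + 4], ![M + 1, M + 2, M + 3], ![M, M + 1, M + 2]] :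
          Fin 3 → Fin 3 → ℕ) 1 (w 1))
        ((![![M + 2, M + 3, M + 4], ![M + 1, M + 2, M + 3], ![M, M + 1, M + 2]] :
          Fin 3 → Fin 3 → ℕ) 2 (w 2)) : ℤ) ^ K) := by
  rw [Fin.prod_univ_succ, Fin.prod_univ_succ]
  simp only [rF, cF, Fin.cons_zero, Fin.cons_succ, Finset.prod_const, Finset.card_univ,
    Fintype.card_fin]
  rfl

lemma tendsto_ratio (a b : ℝ) :
    Filter.Tendsto (fun M : ℕ => ((M : ℝ) + a) / ((M : ℝ) + b)) Filter.atTop (nhds 1) := by
  have h1 : Filter.Tendsto (fun M : ℕ => (M : ℝ) + b) Filter.atTop Filter.atTop :=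
    Filter.tendsto_atTop_add_const_right _ _ tendsto_natCast_atTop_atTop
  have h2 : Filter.Tendsto (fun M : ℕ => 1 + (a - b) / ((M : ℝ) + b)) Filter.atTop
      (nhds (1 + 0)) :=
    tendsto_const_nhds.add (tendsto_const_nhds.div_atTop h1)
  rw [add_zero] at h2
  refine h2.congr' ?_
  filter_upwards [h1.eventually_gt_atTop 0] with M hM
  field_simp
  ring

/-- The ratio of two trinomial coefficients. -/
lemma ratio_of (a b c M : ℕ) (h : a + b + c = (M + 2) + (M + 2) + (M + 2)) :
    (tri ((M + 2) + (M + 2) + (M + 2)) a b c : ℝ) =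
      (tri ((M + 2) + (M + 2) + (M + 2)) (M + 2) (M + 2) (M + 2) : ℝ) *
      ((((M + 2).factorial : ℝ) * (M + 2).factorial * (M + 2).factorial) /
        ((a.factorial : ℝ) * b.factorial * c.factorial)) := by
  have h1 := tri_factorial a b c
  have h2 := tri_factorial (M + 2) (M + 2) (M + 2)
  rw [h] at h1
  rw [← h2] at h1
  have h3 : (tri ((M + 2) + (M + 2) + (M + 2)) a b c : ℝ) *
      ((a.factorial : ℝ) * b.factorial * c.factorial) =
      (tri ((M + 2) + (M + 2) + (M + 2)) (M + 2) (M + 2) (M + 2) : ℝ) *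
      (((M + 2).factorial : ℝ) * (M + 2).factorial * (M + 2).factorial) := by
    exact_mod_cast h1
  have hpos : (0 : ℝ) < (a.factorial : ℝ) * b.factorial * c.factorial := by positivity
  rw [← mul_div_assoc, ← h3]
  field_simp

lemma tri_pos (M : ℕ) : 0 < tri ((M + 2) + (M + 2) + (M + 2)) (M + 2) (M + 2) (M + 2) := by
  have := tri_factorial (M + 2) (M + 2) (M + 2)
  by_contra h
  have h0 : tri ((M + 2) + (M + 2) + (M + 2)) (M + 2) (M + 2) (M + 2) = 0 := by omega
  rw [h0, zero_mul] at this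
  exact (Nat.factorial_pos _).ne this

lemma exists_M (K : ℕ) (a0 a1 a2 a3 a4 a5 : ℝ) (h : a0 - a1 - a2 + a3 + a4 - a5 < 0) :
    ∃ M : ℕ,
      a0 * (tri ((M + 2) + (M + 2) + (M + 2)) (M + 2) (M + 2) (M + 2) : ℝ) ^ K -
      a1 * (tri ((M + 2) + (M + 2) + (M + 2)) (M + 2) (M + 3) (M + 1) : ℝ) ^ K -
      a2 * (tri ((M + 2) + (M + 2) + (M + 2)) (M + 3) (M + 1) (M + 2) : ℝ) ^ K +
      a3 * (tri ((M + 2) + (M + 2) + (M + 2)) (M + 3) (M + 3) M : ℝ) ^ K +
      a4 * (tri ((M + 2) + (M + 2) + (M + 2)) (M + 4) (M + 1) (M + 1) : ℝ) ^ K -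
      a5 * (tri ((M + 2) + (M + 2) + (M + 2)) (M + 4) (M + 2) M : ℝ) ^ K < 0 := by
  have t1 := tendsto_ratio 2 3
  have t2 := tendsto_ratio 1 3
  have t3 := tendsto_ratio 2 4
  have T : Filter.Tendsto (fun M : ℕ => a0
      - a1 * (((M : ℝ) + 2) / ((M : ℝ) + 3)) ^ K
      - a2 * (((M : ℝ) + 2) / ((M : ℝ) + 3)) ^ K
      + a3 * ((((M : ℝ) + 2) / ((M : ℝ) + 3)) * (((M : ℝ) + 1) / ((M : ℝ) + 3))) ^ K
      + a4 * ((((M : ℝ) + 2) / ((M : ℝ) + 3)) * (((M : ℝ) + 2) / ((M : ℝ) + 4))) ^ K
      - a5 * ((((M : ℝ) + 1) / ((M : ℝ) + 3)) * (((M : ℝ) + 2) / ((M : ℝ) + 4))) ^ K)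
      Filter.atTop (nhds (a0 - a1 * 1 ^ K - a2 * 1 ^ K + a3 * (1 * 1) ^ K + a4 * (1 * 1) ^ K
        - a5 * (1 * 1) ^ K)) :=
    (((((tendsto_const_nhds.sub (tendsto_const_nhds.mul (t1.pow K))).sub
      (tendsto_const_nhds.mul (t1.pow K))).add
      (tendsto_const_nhds.mul ((t1.mul t2).pow K))).add
      (tendsto_const_nhds.mul ((t1.mul t3).pow K))).sub
      (tendsto_const_nhds.mul ((t2.mul t3).pow K)))
  have hlim : a0 - a1 * 1 ^ K - a2 * 1 ^ K + a3 * (1 * 1) ^ K + a4 * (1 * 1) ^ K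
        - a5 * (1 * 1) ^ K < 0 := by
    simpa using h
  obtain ⟨M, hM⟩ := ((T.eventually (gt_mem_nhds hlim))).exists
  refine ⟨M, ?_⟩
  have hp : (0 : ℝ) < (tri ((M + 2) + (M + 2) + (M + 2)) (M + 2) (M + 2) (M + 2) : ℝ) := by
    exact_mod_cast tri_pos M
  have f1 : ((M + 1).factorial : ℝ) = ((M : ℝ) + 1) * M.factorial := by
    rw [Nat.factorial_succ]; push_cast; ring
  have f2 : ((M + 2).factorial : ℝ) = ((M : ℝ) + 2) * (((M : ℝ) + 1) * M.factorial) := by
    rw [Nat.factorial_succ, Nat.factorial_succ]; push_cast; ring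
  have f3 : ((M + 3).factorial : ℝ) =
      ((M : ℝ) + 3) * (((M : ℝ) + 2) * (((M : ℝ) + 1) * M.factorial)) := by
    rw [Nat.factorial_succ, Nat.factorial_succ, Nat.factorial_succ]; push_cast; ring
  have f4 : ((M + 4).factorial : ℝ) =
      ((M : ℝ) + 4) * (((M : ℝ) + 3) * (((M : ℝ) + 2) * (((M : ℝ) + 1) * M.factorial))) := by
    rw [Nat.factorial_succ, Nat.factorial_succ, Nat.factorial_succ, Nat.factorial_succ]
    push_cast; ring
  have hf : (0 : ℝ) < (M.factorial : ℝ) := by positivity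
  rw [ratio_of (M + 2) (M + 3) (M + 1) M (by ring), ratio_of (M + 3) (M + 1) (M + 2) M (by ring),
    ratio_of (M + 3) (M + 3) M M (by ring), ratio_of (M + 4) (M + 1) (M + 1) M (by ring),
    ratio_of (M + 4) (M + 2) M M (by ring), f1, f2, f3, f4]
  rw [show (((M : ℝ) + 2) * (((M : ℝ) + 1) * M.factorial) * (((M : ℝ) + 2) *
      (((M : ℝ) + 1) * M.factorial)) * (((M : ℝ) + 2) * (((M : ℝ) + 1) * M.factorial)) /
      (((M : ℝ) + 2) * (((M : ℝ) + 1) * M.factorial) *
      (((M : ℝ) + 3) * (((M : ℝ) + 2) * (((M : ℝ) + 1) * M.factorial))) *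
      (((M : ℝ) + 1) * M.factorial))) = ((M : ℝ) + 2) / ((M : ℝ) + 3) by field_simp]
  rw [show (((M : ℝ) + 2) * (((M : ℝ) + 1) * M.factorial) * (((M : ℝ) + 2) *
      (((M : ℝ) + 1) * M.factorial)) * (((M : ℝ) + 2) * (((M : ℝ) + 1) * M.factorial)) /
      (((M : ℝ) + 3) * (((M : ℝ) + 2) * (((M : ℝ) + 1) * M.factorial)) *
      (((M : ℝ) + 1) * M.factorial) * (((M : ℝ) + 2) * (((M : ℝ) + 1) * M.factorial)))) =
      ((M : ℝ) + 2) / ((M : ℝ) + 3) by field_simp]
  rw [show (((M : ℝ) + 2) * (((M : ℝ) + 1) * M.factorial) * (((M : ℝ) + 2) *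
      (((M : ℝ) + 1) * M.factorial)) * (((M : ℝ) + 2) * (((M : ℝ) + 1) * M.factorial)) /
      (((M : ℝ) + 3) * (((M : ℝ) + 2) * (((M : ℝ) + 1) * M.factorial)) *
      (((M : ℝ) + 3) * (((M : ℝ) + 2) * (((M : ℝ) + 1) * M.factorial))) * M.factorial)) =
      (((M : ℝ) + 2) / ((M : ℝ) + 3)) * (((M : ℝ) + 1) / ((M : ℝ) + 3)) by field_simp]
  rw [show (((M : ℝ) + 2) * (((M : ℝ) + 1) * M.factorial) * (((M : ℝ) + 2) *
      (((M : ℝ) + 1) * M.factorial)) * (((M : ℝ) + 2) * (((M : ℝ) + 1) * M.factorial)) /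
      (((M : ℝ) + 4) * (((M : ℝ) + 3) * (((M : ℝ) + 2) * (((M : ℝ) + 1) * M.factorial))) *
      (((M : ℝ) + 1) * M.factorial) * (((M : ℝ) + 1) * M.factorial))) =
      (((M : ℝ) + 2) / ((M : ℝ) + 3)) * (((M : ℝ) + 2) / ((M : ℝ) + 4)) by field_simp]
  rw [show (((M : ℝ) + 2) * (((M : ℝ) + 1) * M.factorial) * (((M : ℝ) + 2) *
      (((M : ℝ) + 1) * M.factorial)) * (((M : ℝ) + 2) * (((M : ℝ) + 1) * M.factorial)) /
      (((M : ℝ) + 4) * (((M : ℝ) + 3) * (((M : ℝ) + 2) * (((M : ℝ) + 1) * M.factorial))) *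
      (((M : ℝ) + 2) * (((M : ℝ) + 1) * M.factorial)) * M.factorial)) =
      (((M : ℝ) + 1) / ((M : ℝ) + 3)) * (((M : ℝ) + 2) / ((M : ℝ) + 4)) by field_simp]
  simp only [mul_pow _ _ K] at hM ⊢
  have hp' := pow_pos hp K
  have := mul_neg_of_pos_of_neg hp' hM
  linarith [this]

lemma base (K : ℕ) : ∃ M : ℕ, MvPowerSeries.coeff (sqf (fun i => range (rF K M i)))
    (Matrix.det (entrywise (fun i => J i (lamF K M i) (muF K i)))) < 0 := by
  obtain ⟨M, hM⟩ := exists_M K
    ((tri 43 15 13 15 : ℝ) * tri 47 15 17 15) ((tri 43 15 16 12 : ℝ) * tri 47 15 18 14)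
    ((tri 43 16 12 15 : ℝ) * tri 47 18 14 15) ((tri 43 16 16 11 : ℝ) * tri 47 18 18 11)
    ((tri 43 19 12 12 : ℝ) * tri 47 19 14 14) ((tri 43 19 13 11 : ℝ) * tri 47 19 17 11)
    (by norm_num [tri, Nat.choose_eq_factorial_div_factorial, Nat.factorial])
  refine ⟨M, ?_⟩
  have hent : ∀ a b, entrywise (fun i => J i (lamF K M i) (muF K i)) a b =
      ∏ i, esym i (cF K M i a b : ℕ) := by
    intro a b
    unfold entrywise
    rw [Matrix.of_apply]
    exact Finset.prod_congr rfl fun i _ => J_eq K M i a b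
  have hsum : ∀ (w : Fin 3 → Fin 3), (w = ![0, 1, 2] ∨ w = ![0, 2, 1] ∨ w = ![1, 0, 2] ∨
      w = ![1, 2, 0] ∨ w = ![2, 0, 1] ∨ w = ![2, 1, 0]) → ∀ i : Fin (K + 2),
      (range (rF K M i)).card =
        cF K M i 0 (w 0) + cF K M i 1 (w 1) + cF K M i 2 (w 2) := by
    intro w hw i
    rw [card_range]
    rcases hw with rfl | rfl | rfl | rfl | rfl | rfl <;>
      refine Fin.cases ?_ (fun i => Fin.cases ?_ (fun i => ?_) i) i <;>
      simp [rF, cF] <;> omega
  have hcoef : ∀ (w : Fin 3 → Fin 3), (w = ![0, 1, 2] ∨ w = ![0, 2, 1] ∨ w = ![1, 0, 2] ∨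
      w = ![1, 2, 0] ∨ w = ![2, 0, 1] ∨ w = ![2, 1, 0]) →
      MvPowerSeries.coeff (sqf (fun i => range (rF K M i)))
        ((∏ i, esym i (cF K M i 0 (w 0) : ℕ)) * (∏ i, esym i (cF K M i 1 (w 1) : ℕ)) *
          (∏ i, esym i (cF K M i 2 (w 2) : ℕ))) =
      ∏ i, (tri (rF K M i) (cF K M i 0 (w 0)) (cF K M i 1 (w 1)) (cF K M i 2 (w 2)) : ℤ) := by
    intro w hw
    rw [coeff_three _ _ _ _ (hsum w hw)]
    simp only [card_range]
  have c0 := hcoef ![0, 1, 2] (by tauto)
  have c1 := hcoef ![0, 2, 1] (by tauto)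
  have c2 := hcoef ![1, 0, 2] (by tauto)
  have c3 := hcoef ![1, 2, 0] (by tauto)
  have c4 := hcoef ![2, 0, 1] (by tauto)
  have c5 := hcoef ![2, 1, 0] (by tauto)
  rw [prod_tri] at c0 c1 c2 c3 c4 c5
  rw [Matrix.det_fin_three]
  simp only [hent, map_sub, map_add]
  simp only [Matrix.cons_val_zero, Matrix.cons_val_one, Matrix.cons_val] at c0 c1 c2 c3 c4 c5
  rw [c0, c1, c2, c3, c4, c5]
  have e1 : ∀ a b, cF K M 0 a b = (![![15, 16, 19], ![12, 13, 16], ![11, 12, 15]] :
    Fin 3 → Fin 3 → ℕ) a b := fun _ _ => rfl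
  have e2 : ∀ a b, cF K M 1 a b = (![![15, 18, 19], ![14, 17, 18], ![11, 14, 15]] :
    Fin 3 → Fin 3 → ℕ) a b := fun _ _ => rfl
  simp only [e1, e2, Matrix.cons_val_zero, Matrix.cons_val_one, Matrix.cons_val]
  rw [← Int.cast_lt (R := ℝ)]
  push_cast
  simp only [← mul_assoc]
  exact hM

/-! ### More rows -/

lemma esym_neg {k : ℕ} (i : Fin k) {m : ℤ} (hm : m < 0) : esym i m = 0 := by
  classical
  ext d
  show esym i m d = 0
  unfold esym
  rw [if_neg]
  rintro ⟨S, h1, -⟩
  omega

lemma esym_zero {k : ℕ} (i : Fin k) : esym i 0 = 1 := by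
  classical
  ext d
  show esym i 0 d = _
  unfold esym
  rw [MvPowerSeries.coeff_one]
  have h0 : (0 : Var k →₀ ℕ) = ind i ∅ := by simp [ind]
  by_cases h : d = 0
  · rw [if_pos h, if_pos]
    exact ⟨∅, by simp, by rw [h, h0]⟩
  · rw [if_neg h, if_neg]
    rintro ⟨S, h1, h2⟩
    have : S = ∅ := by
      rw [← Finset.card_eq_zero]
      exact_mod_cast h1
    exact h (by rw [h2, this, h0])

lemma antitone_cons {n : ℕ} {f : Fin (n + 1) → ℕ} (hf : Antitone f) {a : ℕ} (ha : f 0 ≤ a) :
    Antitone (Fin.cons a f : Fin (n + 2) → ℕ) := by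
  intro i j hij
  induction j using Fin.cases with
  | zero =>
    have : i = 0 := Fin.le_zero_iff.mp hij
    rw [this]
  | succ j =>
    induction i using Fin.cases with
    | zero =>
      simp only [Fin.cons_succ, Fin.cons_zero]
      exact le_trans (hf (Fin.zero_le j)) ha
    | succ i =>
      simp only [Fin.cons_succ]
      exact hf (Fin.succ_le_succ_iff.mp hij)

/-- Adding a first row in which the two partitions agree does not change the determinant. -/
lemma det_cons {k n : ℕ} (hk : 0 < k) (lam mu : Fin k → Fin (n + 1) → ℕ)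
    (h1 : ∀ i, Antitone (lam i)) :
    Matrix.det (entrywise (fun i => J i (Fin.cons (lam i 0) (lam i) : Fin (n + 2) → ℕ)
      (Fin.cons (lam i 0) (mu i)))) =
    Matrix.det (entrywise (fun i => J i (lam i) (mu i))) := by
  rw [Matrix.det_succ_column_zero, Fin.sum_univ_succ]
  rw [Finset.sum_eq_zero (s := Finset.univ)]
  · have h00 : entrywise (fun i => J i (Fin.cons (lam i 0) (lam i) : Fin (n + 2) → ℕ)
      (Fin.cons (lam i 0) (mu i))) 0 0 = 1 := by
      unfold entrywise
      rw [Matrix.of_apply]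
      exact Finset.prod_eq_one fun i _ => by simp [J, esym_zero]
    rw [h00]
    simp only [Fin.val_zero, pow_zero, one_mul, add_zero]
    congr 1
    ext1 a b
    simp only [Matrix.submatrix_apply, entrywise, Fin.succAbove_zero, J,
      Matrix.of_apply, Fin.cons_succ, Fin.val_succ]
    refine Finset.prod_congr rfl fun i _ => ?_
    congr 1
    push_cast
    ring
  · intro a _
    have : entrywise (fun i => J i (Fin.cons (lam i 0) (lam i) : Fin (n + 2) → ℕ)
      (Fin.cons (lam i 0) (mu i))) a.succ 0 = 0 := by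
      unfold entrywise
      rw [Matrix.of_apply]
      refine Finset.prod_eq_zero (Finset.mem_univ ⟨0, hk⟩) ?_
      simp only [J, Matrix.of_apply, Fin.cons_succ, Fin.cons_zero, Fin.val_succ, Fin.val_zero]
      apply esym_neg
      have := h1 ⟨0, hk⟩ (Fin.zero_le a)
      push_cast
      omega
    rw [this]
    simp

/-- **Monomial positivity of Temperley-Lieb immanants of Hadamard products of Jacobi-Trudi matrices
is false.** For all `k ≥ 2` and `n ≥ 3` there are skew shapes `λ^{(i)}/μ^{(i)}`, `1 ≤ i ≤ k`, with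
`n` nonzero rows `λ^{(i)}` each, such that the determinant of the entrywise product of their
Jacobi-Trudi matrices, that is, its Temperley-Lieb immanant for `τ = 1`, has a negative
coefficient. -/
theorem result : ∀ k n : ℕ, 2 ≤ k → 3 ≤ n → ∃ lam mu : Fin k → Fin n → ℕ,
    (∀ i, Antitone (lam i)) ∧ (∀ i, Antitone (mu i)) ∧ (∀ i, mu i ≤ lam i) ∧
    (∀ i a, 0 < lam i a) ∧
    ∃ d : Var k →₀ ℕ,
      MvPowerSeries.coeff d (Matrix.det (entrywise (fun i => J i (lam i) (mu i)))) < 0 := by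
  intro k n hk hn
  obtain ⟨K, rfl⟩ : ∃ K, k = K + 2 := ⟨k - 2, by omega⟩
  induction n, hn using Nat.le_induction with
  | base =>
    obtain ⟨M, hM⟩ := base K
    refine ⟨lamF K M, muF K, ?_, ?_, ?_, ?_, _, hM⟩
    · intro i
      refine Fin.cases ?_ (fun i => Fin.cases ?_ (fun i => ?_) i) i
      · show Antitone (![17, 15, 15] : Fin 3 → ℕ)
        unfold Antitone; decide
      · show Antitone (![17, 17, 15] : Fin 3 → ℕ)
        unfold Antitone; decide
      · show Antitone (![M + 2, M + 2, M + 2] : Fin 3 → ℕ)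
        intro a b _
        fin_cases a <;> fin_cases b <;> simp
    · intro i
      refine Fin.cases ?_ (fun i => Fin.cases ?_ (fun i => ?_) i) i
      · show Antitone (![2, 2, 0] : Fin 3 → ℕ)
        unfold Antitone; decide
      · show Antitone (![2, 0, 0] : Fin 3 → ℕ)
        unfold Antitone; decide
      · show Antitone (![0, 0, 0] : Fin 3 → ℕ)
        unfold Antitone; decide
    · intro i
      refine Fin.cases ?_ (fun i => Fin.cases ?_ (fun i => ?_) i) i
      · show (![2, 2, 0] : Fin 3 → ℕ) ≤ ![17, 15, 15]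
        rw [Pi.le_def]; decide
      · show (![2, 0, 0] : Fin 3 → ℕ) ≤ ![17, 17, 15]
        rw [Pi.le_def]; decide
      · show (![0, 0, 0] : Fin 3 → ℕ) ≤ ![M + 2, M + 2, M + 2]
        intro a
        fin_cases a <;> simp
    · intro i
      refine Fin.cases ?_ (fun i => Fin.cases ?_ (fun i => ?_) i) i
      · show ∀ a, 0 < (![17, 15, 15] : Fin 3 → ℕ) a
        decide
      · show ∀ a, 0 < (![17, 17, 15] : Fin 3 → ℕ) a
        decide
      · show ∀ a, 0 < (![M + 2, M + 2, M + 2] : Fin 3 → ℕ) a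
        intro a
        fin_cases a <;> simp
  | succ n hn ih =>
    obtain ⟨lam, mu, h1, h2, h3, h4, d, h5⟩ := ih
    obtain ⟨m, rfl⟩ : ∃ m, n = m + 1 := ⟨n - 1, by omega⟩
    refine ⟨fun i => Fin.cons (lam i 0) (lam i), fun i => Fin.cons (lam i 0) (mu i),
      fun i => antitone_cons (h1 i) le_rfl, fun i => antitone_cons (h2 i) (h3 i 0), ?_, ?_, d, ?_⟩
    · intro i a
      induction a using Fin.cases with
      | zero => simp
      | succ a => simpa using h3 i a
    · intro i a
      induction a using Fin.cases with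
      | zero => simpa using h4 i 0
      | succ a => simpa using h4 i a
    · rw [det_cons (by omega) lam mu h1]
      exact h5

end Pool.Agent.Results.MP_f8aafe_co.NegativeForAllKN
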